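import Pool.Agent.Lib.LF.Defs

/-!
# C43 (MP_2c257b_al), block N (helper20): the 48 port words of the free group of rank 9
-/

set_option autoImplicit false

namespace Pool.Agent.LF.NN

/-! ### Commuting elements of a free group -/

theorem of_comm_eq {α : Type*} {a b : α}
    (h : FreeGroup.of a * FreeGroup.of b = FreeGroup.of b * FreeGroup.of a) : a = b := by
  classical
  by_contra hab
  have h1 := congrArg (FreeGroup.lift fun c => if c = a then (Equiv.swap 0 1 : Equiv.Perm (Fin 3))
    else Equiv.swap 1 2) h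
  simp only [map_mul, FreeGroup.lift_apply_of, if_true, if_neg (Ne.symm hab)] at h1
  exact absurd h1 (by decide)

theorem freeGroup_zpowers {α : Type*} [Subsingleton α] (a : α) (z : FreeGroup α) :
    z ∈ Subgroup.zpowers (FreeGroup.of a) := by
  have h : (⊤ : Subgroup (FreeGroup α)) ≤ Subgroup.zpowers (FreeGroup.of a) := by
    rw [← FreeGroup.closure_range_of, Subgroup.closure_le]
    rintro _ ⟨b, rfl⟩
    rw [Subsingleton.elim b a]
    exact Subgroup.mem_zpowers _
  exact h (Subgroup.mem_top z)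

/-- A commutative free group is cyclic. -/
theorem cyclic_of_comm (G : Type*) [Group G] [IsFreeGroup G] (h : ∀ x y : G, x * y = y * x) :
    ∃ w : G, ∀ x : G, x ∈ Subgroup.zpowers w := by
  let φ : G ≃* FreeGroup (IsFreeGroup.Generators G) := IsFreeGroup.toFreeGroup G
  have hs : Subsingleton (IsFreeGroup.Generators G) := by
    refine ⟨fun a b => of_comm_eq ?_⟩
    have h1 := congrArg φ (h (φ.symm (FreeGroup.of a)) (φ.symm (FreeGroup.of b)))
    simpa using h1
  by_cases hn : Nonempty (IsFreeGroup.Generators G)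
  · obtain ⟨a⟩ := hn
    refine ⟨φ.symm (FreeGroup.of a), fun x => ?_⟩
    obtain ⟨n, hn⟩ := Subgroup.mem_zpowers_iff.1 (freeGroup_zpowers a (φ x))
    refine Subgroup.mem_zpowers_iff.2 ⟨n, ?_⟩
    rw [← map_zpow, hn, MulEquiv.symm_apply_apply]
  · rw [not_nonempty_iff] at hn
    refine ⟨1, fun x => ?_⟩
    have h1 : φ x = 1 := Subsingleton.elim _ _
    have h2 : x = 1 := by
      rw [← φ.symm_apply_apply x, h1, map_one]
    rw [h2]
    exact Subgroup.one_mem _

/-- Commuting elements of a free group are powers of one element. -/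
theorem comm_zpow {α : Type*} {x y : FreeGroup α} (h : Commute x y) :
    ∃ w, x ∈ Subgroup.zpowers w ∧ y ∈ Subgroup.zpowers w := by
  have hc : ∀ a ∈ ({x, y} : Set (FreeGroup α)), ∀ b ∈ ({x, y} : Set (FreeGroup α)),
      a * b = b * a := by
    rintro a (rfl | rfl) b (rfl | rfl)
    · rfl
    · exact h
    · exact h.symm
    · rfl
  let H := Subgroup.closure ({x, y} : Set (FreeGroup α))
  have hH : ∀ a b : H, a * b = b * a := by
    intro a b
    have := Subgroup.isMulCommutative_closure hc
    exact mul_comm' a b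
  obtain ⟨w, hw⟩ := cyclic_of_comm H hH
  have key : ∀ z : FreeGroup α, z ∈ H → z ∈ Subgroup.zpowers (w : FreeGroup α) := by
    intro z hz
    obtain ⟨n, hn⟩ := Subgroup.mem_zpowers_iff.1 (hw ⟨z, hz⟩)
    refine Subgroup.mem_zpowers_iff.2 ⟨n, ?_⟩
    have := congrArg Subtype.val hn
    simpa using this
  exact ⟨w, key x (Subgroup.subset_closure (Or.inl rfl)),
    key y (Subgroup.subset_closure (Or.inr rfl))⟩

/-- If a homomorphism to `ℤ` takes the value `±1` on a power of `w` then the exponent is `±1`. -/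
theorem exp_unit {G : Type*} [Group G] (f : G →* Multiplicative ℤ) {w x : G} {n : ℤ}
    (h : w ^ n = x) (hf : IsUnit (Multiplicative.toAdd (f x))) : n = 1 ∨ n = -1 := by
  rw [← h, map_zpow, toAdd_zpow, smul_eq_mul] at hf
  exact Int.isUnit_iff.1 (isUnit_of_mul_isUnit_left hf)

/-- The main reduction. -/
theorem comm_cases {α : Type*} {x y : FreeGroup α} (h : Commute x y)
    (f f' : FreeGroup α →* Multiplicative ℤ) (hf : IsUnit (Multiplicative.toAdd (f x)))
    (hf' : IsUnit (Multiplicative.toAdd (f' y))) : x = y ∨ x = y⁻¹ := by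
  obtain ⟨w, hx, hy⟩ := comm_zpow h
  obtain ⟨m, hm⟩ := Subgroup.mem_zpowers_iff.1 hx
  obtain ⟨n, hn⟩ := Subgroup.mem_zpowers_iff.1 hy
  rcases exp_unit f hm hf with rfl | rfl <;> rcases exp_unit f' hn hf' with rfl | rfl
  · left
    rw [← hm, ← hn]
  · right
    rw [← hm, ← hn]
    simp
  · right
    rw [← hm, ← hn]
    simp
  · left
    rw [← hm, ← hn]

theorem comm_self {α : Type*} {g x : FreeGroup α} (h : Commute g x)
    (f : FreeGroup α →* Multiplicative ℤ) (hf : IsUnit (Multiplicative.toAdd (f x))) :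
    g ∈ Subgroup.zpowers x := by
  obtain ⟨w, hg, hx⟩ := comm_zpow h
  obtain ⟨n, hn⟩ := Subgroup.mem_zpowers_iff.1 hx
  rcases exp_unit f hn hf with rfl | rfl
  · rw [← hn, zpow_one]
    exact hg
  · rw [← hn, zpow_neg, zpow_one, Subgroup.zpowers_inv]
    exact hg

/-! ### Homomorphisms to the integers -/

/-- The homomorphism to `ℤ` with the values `c`. -/
def ah (c : Bs → ℤ) : FreeGroup Bs →* Multiplicative ℤ :=
  FreeGroup.lift fun b => Multiplicative.ofAdd (c b)

theorem ah_aw (c : Bs → ℤ) (j X : Fin 3) : Multiplicative.toAdd (ah c (aw j X)) = c (j, X) := by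
  unfold ah aw
  rw [FreeGroup.lift_apply_of]
  rfl

theorem ah_mul (c : Bs → ℤ) (x y : FreeGroup Bs) : Multiplicative.toAdd (ah c (x * y)) =
    Multiplicative.toAdd (ah c x) + Multiplicative.toAdd (ah c y) := by
  rw [map_mul]
  rfl

theorem ah_inv (c : Bs → ℤ) (x : FreeGroup Bs) : Multiplicative.toAdd (ah c x⁻¹) =
    -Multiplicative.toAdd (ah c x) := by
  rw [map_inv]
  rfl

/-- The value on the target word. -/
def tv (c : Bs → ℤ) : Kt → ℤ
  | .t j z => c (j, fx z) + c (j, fy z)
  | .s j z => c (j, z)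
  | .r i X => c (i.succ, X)

/-- The value on the source word. -/
def sv (c : Bs → ℤ) : Kt → ℤ
  | .t j z => c (j, z)
  | .s j z => -c (j, z)
  | .r i X => (![c (i.castSucc, 0) + c (i.castSucc, 2),
      c (i.castSucc, 0) + c (i.castSucc, 1) + c (i.castSucc, 2),
      c (i.castSucc, 1) + c (i.castSucc, 2) + c (i.castSucc, 2)] : Fin 3 → ℤ) X

/-- The value on a port word. -/
def pv (c : Bs → ℤ) (e : Et) : ℤ := if e.2 then tv c e.1 else -sv c e.1

theorem ah_pe (c : Bs → ℤ) (e : Et) : Multiplicative.toAdd (ah c (pe e)) = pv c e := by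
  obtain ⟨k, o⟩ := e
  cases o
  · show Multiplicative.toAdd (ah c (src aw k)⁻¹) = -sv c k
    rw [ah_inv]
    congr 1
    cases k with
    | t j z =>
      show Multiplicative.toAdd (ah c (cm (aw j (fx z)) (aw j (fy z)) * aw j z)) = c (j, z)
      unfold cm
      simp only [ah_mul, ah_inv, ah_aw]
      ring
    | s j z =>
      show Multiplicative.toAdd (ah c (cm (aw j (fx z)) (aw j (fy z)) * (aw j z)⁻¹)) = -c (j, z)
      unfold cm
      simp only [ah_mul, ah_inv, ah_aw]
      ring
    | r i X =>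
      fin_cases X
      · show Multiplicative.toAdd (ah c (aw i.castSucc 0 * aw i.castSucc 2)) = _
        simp only [ah_mul, ah_aw]
        rfl
      · show Multiplicative.toAdd (ah c (aw i.castSucc 0 * aw i.castSucc 1 * aw i.castSucc 2)) = _
        simp only [ah_mul, ah_aw]
        rfl
      · show Multiplicative.toAdd (ah c (aw i.castSucc 1 * aw i.castSucc 2 * aw i.castSucc 2)) = _
        simp only [ah_mul, ah_aw]
        rfl
  · show Multiplicative.toAdd (ah c (tgt aw k)) = tv c k
    cases k with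
    | t j z =>
      show Multiplicative.toAdd (ah c (aw j (fx z) * aw j (fy z))) = _
      simp only [ah_mul, ah_aw]
      rfl
    | s j z =>
      show Multiplicative.toAdd (ah c (cm (aw j (fx z)) (aw j (fy z)) * aw j z)) = c (j, z)
      unfold cm
      simp only [ah_mul, ah_inv, ah_aw]
      ring
    | r i X =>
      exact ah_aw c i.succ X

/-- The coordinate function of a letter. -/
def co (b : Bs) : Bs → ℤ := fun b' => if b' = b then 1 else 0

/-- A letter with exponent sum `±1`. -/
def le' : Et → Bs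
  | (.t j z, true) => (j, fx z)
  | (.t j z, false) => (j, z)
  | (.s j z, _) => (j, z)
  | (.r i X, true) => (i.succ, X)
  | (.r i X, false) => (i.castSucc, (![0, 0, 1] : Fin 3 → Fin 3) X)

theorem unit_pe : ∀ e : Et, pv (co (le' e)) e = 1 ∨ pv (co (le' e)) e = -1 := by
  decide

theorem isUnit_pe (e : Et) : IsUnit (Multiplicative.toAdd (ah (co (le' e)) (pe e))) := by
  rw [ah_pe, Int.isUnit_iff]
  exact unit_pe e

/-- A numbering of the letters. -/
def wt : Bs → ℤ := fun b => 10 ^ (3 * b.1.val + b.2.val)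

/-- The class of the words with the exponent vector of one letter. -/
def kl : Et → Option Bs
  | (.s j z, _) => some (j, z)
  | (.r i X, true) => some (i.succ, X)
  | _ => none

/-- The central coordinate. -/
def hv : Et → ℤ
  | (.s _ _, true) => 1
  | (.s _ _, false) => -1
  | _ => 0

theorem pv_wt : ∀ e e' : Et, pv wt e = pv wt e' → e = e' ∨ (kl e = kl e' ∧ (kl e).isSome = true) := by
  decide

/-! ### The Heisenberg group -/

/-- The Heisenberg group. -/
@[ext] structure Hs where
  a : ℤ
  b : ℤ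
  c : ℤ

namespace Hs

instance : Mul Hs := ⟨fun x y => ⟨x.a + y.a, x.b + y.b, x.c + y.c + x.a * y.b⟩⟩
instance : One Hs := ⟨⟨0, 0, 0⟩⟩
instance : Inv Hs := ⟨fun x => ⟨-x.a, -x.b, -x.c + x.a * x.b⟩⟩

theorem mul_def (x y : Hs) : x * y = ⟨x.a + y.a, x.b + y.b, x.c + y.c + x.a * y.b⟩ := rfl
theorem one_def : (1 : Hs) = ⟨0, 0, 0⟩ := rfl
theorem inv_def (x : Hs) : x⁻¹ = ⟨-x.a, -x.b, -x.c + x.a * x.b⟩ := rfl

instance : Group Hs where
  mul_assoc x y z := by
    simp only [mul_def]
    ext <;> simp <;> ring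
  one_mul x := by
    simp only [mul_def, one_def]
    ext <;> simp
  mul_one x := by
    simp only [mul_def, one_def]
    ext <;> simp
  inv_mul_cancel x := by
    simp only [mul_def, one_def, inv_def]
    ext <;> simp

end Hs

/-- The homomorphism which kills `Z` in the copy `j` and all other copies. -/
def hh (j z : Fin 3) : FreeGroup Bs →* Hs :=
  FreeGroup.lift fun b => if b = (j, fx z) then ⟨1, 0, 0⟩ else if b = (j, fy z) then ⟨0, 1, 0⟩ else 1

theorem fx_ne_fy (z : Fin 3) : fy z ≠ fx z := by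
  revert z
  decide

theorem ne_fx (z : Fin 3) : z ≠ fx z := by
  revert z
  decide

theorem ne_fy (z : Fin 3) : z ≠ fy z := by
  revert z
  decide

theorem hh_x (j z : Fin 3) : hh j z (aw j (fx z)) = ⟨1, 0, 0⟩ := by
  unfold hh aw
  rw [FreeGroup.lift_apply_of, if_pos rfl]

theorem hh_y (j z : Fin 3) : hh j z (aw j (fy z)) = ⟨0, 1, 0⟩ := by
  unfold hh aw
  rw [FreeGroup.lift_apply_of, if_neg (fun h => fx_ne_fy z (congrArg Prod.snd h)), if_pos rfl]

theorem hh_z (j z : Fin 3) : hh j z (aw j z) = 1 := by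
  unfold hh aw
  rw [FreeGroup.lift_apply_of, if_neg (fun h => ne_fx z (congrArg Prod.snd h)),
    if_neg (fun h => ne_fy z (congrArg Prod.snd h))]

theorem hh_cm (j z : Fin 3) : hh j z (cm (aw j (fx z)) (aw j (fy z))) = ⟨0, 0, 1⟩ := by
  unfold cm
  rw [map_mul, map_mul, map_mul, map_inv, map_inv, hh_x, hh_y]
  rfl

theorem hh_pe (e : Et) (j z : Fin 3) (h : kl e = some (j, z)) : hh j z (pe e) = ⟨0, 0, hv e⟩ := by
  obtain ⟨k, o⟩ := e
  cases k with
  | t j' z' => cases o <;> exact absurd h (by simp [kl])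
  | s j' z' =>
    have h1 : (j', z') = (j, z) := Option.some_injective _ h
    obtain ⟨rfl, rfl⟩ := Prod.mk.inj h1
    cases o
    · show hh j' z' (cm (aw j' (fx z')) (aw j' (fy z')) * (aw j' z')⁻¹)⁻¹ = _
      rw [map_inv, map_mul, map_inv, hh_cm, hh_z]
      rfl
    · show hh j' z' (cm (aw j' (fx z')) (aw j' (fy z')) * aw j' z') = _
      rw [map_mul, hh_cm, hh_z]
      rfl
  | r i X =>
    cases o
    · exact absurd h (by simp [kl])
    · have h1 : (i.succ, X) = (j, z) := Option.some_injective _ h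
      obtain ⟨rfl, rfl⟩ := Prod.mk.inj h1
      show hh i.succ X (aw i.succ X) = _
      rw [hh_z]
      rfl

theorem conj_central (g : Hs) (c c' : ℤ) (h : g * ⟨0, 0, c⟩ * g⁻¹ = ⟨0, 0, c'⟩) : c = c' := by
  rw [Hs.inv_def, Hs.mul_def, Hs.mul_def] at h
  have h1 := congrArg Hs.c h
  simp only at h1
  linarith

theorem kl_hv : ∀ e e' : Et, kl e = kl e' → (kl e).isSome = true → hv e = hv e' → e = e' := by
  decide

/-- Conjugate port words belong to the same port. -/
theorem conj_pe {e e' : Et} {g : FreeGroup Bs} (h : g * pe e * g⁻¹ = pe e') : e = e' := by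
  have h1 : pv wt e = pv wt e' := by
    have h2 := congrArg (fun x => Multiplicative.toAdd (ah wt x)) h
    simp only [ah_mul, ah_inv, ah_pe] at h2
    linarith
  rcases pv_wt e e' h1 with h2 | ⟨h2, h3⟩
  · exact h2
  · obtain ⟨⟨j, z⟩, hb⟩ := Option.isSome_iff_exists.1 h3
    refine kl_hv e e' h2 h3 ?_
    have h4 := congrArg (hh j z) h
    rw [map_mul, map_mul, map_inv, hh_pe e j z hb, hh_pe e' j z (h2 ▸ hb)] at h4
    exact conj_central _ _ _ h4

/-- **N.** Conjugates of port words commute only if the ports agree or are opposite. -/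
theorem pN : S_N := by
  intro e e' g h
  have hf : IsUnit (Multiplicative.toAdd (ah (co (le' e)) (g * pe e * g⁻¹))) := by
    rw [ah_mul, ah_mul, ah_inv, add_neg_cancel_comm]
    exact isUnit_pe e
  rcases comm_cases h _ _ hf (isUnit_pe e') with h1 | h1
  · left
    have h2 := conj_pe h1
    subst h2
    refine ⟨rfl, comm_self ?_ _ (isUnit_pe e)⟩
    show g * pe e = pe e * g
    exact mul_inv_eq_iff_eq_mul.1 h1
  · exact Or.inr h1

end Pool.Agent.LF.NN
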